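import Pool.Agent.H93.Final3

/-!
Closed form asymptotics for the number `N(x)` of non-arithmetic positive integers up to `x`:
`g0` is the only possible closed form up to asymptotic equivalence, and it is one exactly when the
primes are regularly distributed in Gaussian windows of width `√t` around `t`.
-/

namespace Pool.Agent.Results.MP_d8321d_nt.ClosedFormCriterion

open Filter Topology Pool.Agent.H93

theorem result :
    ClosedForm g0 ∧
    ∀ g : ℝ → ℝ, ClosedForm g →
      (Tendsto (fun x : ℝ =>
          (((Finset.Icc 1 ⌊x⌋₊).filter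
            (fun n : ℕ => ¬ n.divisors.card ∣ ∑ d ∈ n.divisors, d)).card : ℝ) / (x * g x))
          atTop (𝓝 1) ↔
        (Tendsto (fun x : ℝ => g x / g0 x) atTop (𝓝 1) ∧
          Tendsto (fun t : ℝ =>
            (∑' p : Nat.Primes, Real.exp (-(Real.log 2 * ((p : ℝ) - t) ^ 2 / t))) /
              (√(Real.pi * t / Real.log 2) / Real.log t)) atTop (𝓝 1))) :=
  ⟨g0_closed, closed_forms⟩

end Pool.Agent.Results.MP_d8321d_nt.ClosedFormCriterion
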