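import Pool.Agent.H93.Final2

/-!
The number `N(x)` of non-arithmetic positive integers up to `x` (those `n` whose number of divisors
does not divide the sum of their divisors) satisfies
`N(x) / x ∼ ∑_{p prime} 2^{-p} (log x)^{-1/(p-1)}` as `x → ∞`, unconditionally.
-/

namespace Pool.Agent.Results.MP_d8321d_nt.SumOverPrimes

open Filter Topology

theorem result :
    Tendsto (fun x : ℝ =>
      (((Finset.Icc 1 ⌊x⌋₊).filter
        (fun n : ℕ => ¬ n.divisors.card ∣ ∑ d ∈ n.divisors, d)).card : ℝ) /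
      (x * ∑' p : Nat.Primes, (1 / 2 : ℝ) ^ (p : ℕ) * (Real.log x) ^ (-(1 : ℝ) / ((p : ℝ) - 1))))
      atTop (𝓝 1) :=
  Pool.Agent.H93.main_asymptotic

end Pool.Agent.Results.MP_d8321d_nt.SumOverPrimes
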