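import Pool.Agent.H90.NA.Fin

/-!
The number `N(x)` of non-arithmetic positive integers up to `x` is at most `(4 + ε) x g0(x)` for all
large `x`, and `N(x) / (x g0(x))` comes below `1 + ε` and above `1 - ε` for arbitrarily large `x`.
-/

namespace Pool.Agent.Results.MP_d8321d_nt.WithinConstant

open Filter Topology Pool.Agent.H93

theorem result :
    (∀ ε : ℝ, 0 < ε → ∀ᶠ x : ℝ in atTop,
      (((Finset.Icc 1 ⌊x⌋₊).filter
        (fun n : ℕ => ¬ n.divisors.card ∣ ∑ d ∈ n.divisors, d)).card : ℝ) ≤ (4 + ε) * (x * g0 x)) ∧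
    (∀ ε : ℝ, 0 < ε → ∃ᶠ x : ℝ in atTop,
      (((Finset.Icc 1 ⌊x⌋₊).filter
        (fun n : ℕ => ¬ n.divisors.card ∣ ∑ d ∈ n.divisors, d)).card : ℝ) ≤ (1 + ε) * (x * g0 x)) ∧
    (∀ ε : ℝ, 0 < ε → ∃ᶠ x : ℝ in atTop,
      (1 - ε) * (x * g0 x) ≤ (((Finset.Icc 1 ⌊x⌋₊).filter
        (fun n : ℕ => ¬ n.divisors.card ∣ ∑ d ∈ n.divisors, d)).card : ℝ)) :=
  Pool.Agent.H90.NA.bounds

end Pool.Agent.Results.MP_d8321d_nt.WithinConstant
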